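import Pool.Agent.Helper85.QT.St3

/-!
# Project QT (MP_d112a4_gt), module LKC: the contribution of a lift, by the exact integral
-/

set_option autoImplicit false

open MeasureTheory Matrix Set Topology
open scoped ENNReal ComplexConjugate

namespace Pool.Agent.Helper8.QT

open Pool.Agent.Helper85.QT Pool.Agent.Helper86.QA

/-- the elementary estimate -/
lemma exp_cube (c m : ℝ) (hc : 0 < c) (hm : 0 < m) :
    m * Real.exp (-c * (m / 2)) ≤ 48 / c ^ 3 / m ^ 2 := by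
  have h1 := Real.pow_div_factorial_le_exp (c * (m / 2)) (by positivity) 3
  have h2 : ((Nat.factorial 3 : ℕ) : ℝ) = 6 := by norm_num [Nat.factorial]
  rw [h2, div_le_iff₀ (by norm_num : (0 : ℝ) < 6)] at h1
  have h3 : Real.exp (-c * (m / 2)) * Real.exp (c * (m / 2)) = 1 := by
    rw [← Real.exp_add]
    have : -c * (m / 2) + c * (m / 2) = 0 := by ring
    rw [this, Real.exp_zero]
  have h4 : 0 < Real.exp (-c * (m / 2)) := Real.exp_pos _
  rw [div_div, le_div_iff₀ (by positivity)]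
  have h5 := mul_le_mul_of_nonneg_left h1 h4.le
  have h6 : Real.exp (-c * (m / 2)) * (Real.exp (c * (m / 2)) * 6) = 6 := by
    rw [← mul_assoc, h3, one_mul]
  rw [h6] at h5
  nlinarith

theorem hLKC (hHN1 : Pool.Agent.Helper85.QT.StHN1) (hHN2 : Pool.Agent.Helper85.QT.StHN2)
    (hANB : Pool.Agent.Helper85.QT.StANB) (hHLI : Pool.Agent.Helper85.QT.StHLI)
    (hPUL : Pool.Agent.Helper85.QT.StPUL) (hLKE : Pool.Agent.Helper85.QT.StLKE)
    (hLKF : Pool.Agent.Helper85.QT.StLKF) : Pool.Agent.Helper85.QT.StLKC := by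
  obtain ⟨C₂, c₂, hC₂, hc₂, hHN2⟩ := hHN2
  obtain ⟨mE, hLKE⟩ := hLKE
  obtain ⟨CF, hCF, hLKF⟩ := hLKF (1 / 25) (by norm_num)
  refine ⟨CF + 4 * C₂ * (48 / c₂ ^ 3), max 6 mE, by positivity, ?_⟩
  intro Γ _ ρ A B α lam M G m φ C3 hAnn hCls hm μ0 μ hCof hμ0 a ha b hb ha0 hb0 hab
  have hm6 : 6 ≤ m := (le_max_left _ _).trans hm
  have hmE : mE ≤ m := (le_max_right _ _).trans hm
  have hm0 : 0 < m := by linarith
  obtain ⟨hl0, -, -, hHN, hmM, -, hMt, -, -, htau, -, -, -, hff, -⟩ := hANB Γ ρ A B α lam M G m φ C3 hAnn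
  obtain ⟨hdif, hint, hEE, hmu⟩ := hPUL Γ ρ A B α lam M G m φ C3 hAnn hCls a ha b hb ha0 hb0 hab
  obtain ⟨J, hJ, hJ2, -, hJ4⟩ := hHLI m _ hm0 hdif hint
  obtain ⟨δ, hδ1, hδ2, hLi, hLe⟩ := hLKE Γ ρ A B α lam M G m φ C3 hAnn hmE a ha b hb ha0 hb0 hab
  have hF := hLKF lam a b δ m hAnn.re (by linarith) (by
    rw [← htau]; exact hmM.trans hMt) ha0 hb0 hab hδ1 (by
    rw [← htau]
    have h9 : (1 : ℝ) / 25 * m = m / 25 := by ring
    rw [h9]; exact hδ2)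
  set E : ℂ := -2 + ((a + b) / (a - b)) * (lam * δ) with hE
  set W : ℝ := ∫ ξ in EE lam G φ (m / 3) (2 * m / 3), ‖th a b ξ‖ with hW
  obtain ⟨hthI, hthE⟩ := hEE (m / 3) (2 * m / 3) (by positivity) (by linarith)
  have hW0 : 0 ≤ W := integral_nonneg fun _ => norm_nonneg _
  -- the integral over the annulus
  obtain ⟨-, hK⟩ := hmu μ0 μ hCof
  have hSm : ∫ w in Sm m, th a b (ff lam G φ w) * deriv (ff lam G φ) w ^ 2 = (m : ℂ) * J := by
    have h1 := hJ2 0 m le_rfl hm0.le le_rfl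
    rw [sub_zero] at h1
    exact h1
  -- the line
  have hline : ∀ t : ℝ, (t : ℂ) + (m / 2 : ℝ) * Complex.I ∈ Sm m ∧
      dd m ((t : ℂ) + (m / 2 : ℝ) * Complex.I) = m / 2 := by
    intro t
    have h1 : ((t : ℂ) + (m / 2 : ℝ) * Complex.I).im = m / 2 := by simp
    refine ⟨?_, ?_⟩
    · show 0 < ((t : ℂ) + (m / 2 : ℝ) * Complex.I).im ∧ ((t : ℂ) + (m / 2 : ℝ) * Complex.I).im < m
      rw [h1]
      constructor <;> linarith
    · rw [dd, h1, min_eq_left (by linarith)]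
  obtain ⟨hJi, hJe⟩ := hJ (m / 2) (by linarith) (by linarith)
  have hpt : ∀ t : ℝ, ‖th a b (ff lam G φ ((t : ℂ) + (m / 2 : ℝ) * Complex.I)) *
        deriv (ff lam G φ) ((t : ℂ) + (m / 2 : ℝ) * Complex.I) ^ 2 -
      lam * (th a b (ff lam G φ (t + (m / 2 : ℝ) * Complex.I)) * ff lam G φ (t + (m / 2 : ℝ) * Complex.I) *
      deriv (ff lam G φ) (t + (m / 2 : ℝ) * Complex.I))‖ ≤
      4 * C₂ * Real.exp (-c₂ * (m / 2)) * ‖th a b (ff lam G φ ((t : ℂ) + (m / 2 : ℝ) * Complex.I)) *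
        deriv (ff lam G φ) ((t : ℂ) + (m / 2 : ℝ) * Complex.I) ^ 2‖ := by
    intro t
    obtain ⟨h1, h2⟩ := hline t
    obtain ⟨-, h3, -⟩ := hff _ h1
    have h4 := (hHN1 m _ hHN).2.1 _ (by rw [h2]; linarith)
    have h5 := (hHN2 m _ (by linarith) hHN).1 _ (by rw [h2]; linarith)
    rw [h2] at h5
    generalize (t : ℂ) + (m / 2 : ℝ) * Complex.I = w at *
    generalize deriv (fun w => G (φ w)) w = d at *
    have h6 : th a b (ff lam G φ w) * deriv (ff lam G φ) w ^ 2 =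
        d * (lam * (th a b (ff lam G φ w) * ff lam G φ w * deriv (ff lam G φ) w)) := by
      rw [sq]
      nth_rewrite 1 [h3]
      ring
    rw [h6]
    generalize lam * (th a b (ff lam G φ w) * ff lam G φ w * deriv (ff lam G φ) w) = L at *
    have h7 : d * L - L = (d - 1) * L := by ring
    rw [h7, norm_mul, norm_mul]
    have h8 : 0 ≤ ‖L‖ := norm_nonneg _
    have h9 : 0 ≤ C₂ * Real.exp (-c₂ * (m / 2)) := by positivity
    calc ‖d - 1‖ * ‖L‖ ≤ (C₂ * Real.exp (-c₂ * (m / 2))) * ‖L‖ := mul_le_mul_of_nonneg_right h5 h8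
      _ ≤ (C₂ * Real.exp (-c₂ * (m / 2))) * (4 * ‖d‖ * ‖L‖) := by
          apply mul_le_mul_of_nonneg_left _ h9
          nlinarith
      _ = _ := by ring
  have hdiff : ‖J - lam * E‖ ≤ 4 * C₂ * Real.exp (-c₂ * (m / 2)) * W := by
    rw [← hJe, ← hLe, ← integral_const_mul, ← integral_sub hJi (hLi.const_mul lam)]
    refine (norm_integral_le_integral_norm _).trans ?_
    have h1 : ∫ t : ℝ, 4 * C₂ * Real.exp (-c₂ * (m / 2)) *
        ‖th a b (ff lam G φ ((t : ℂ) + (m / 2 : ℝ) * Complex.I)) *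
          deriv (ff lam G φ) ((t : ℂ) + (m / 2 : ℝ) * Complex.I) ^ 2‖ ≤
        4 * C₂ * Real.exp (-c₂ * (m / 2)) * W := by
      rw [integral_const_mul, hW, hthE]
      exact mul_le_mul_of_nonneg_left (hJ4 hm6) (by positivity)
    refine le_trans ?_ h1
    exact integral_mono (hJi.sub (hLi.const_mul lam)).norm (hJi.norm.const_mul _) hpt
  have hKn : ‖∫ ξ in EE lam G φ 0 m, μ ξ * th a b ξ‖ ≤
      (CF + 4 * C₂ * (48 / c₂ ^ 3)) * (1 + |Real.log (‖a‖ / ‖b‖)|) +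
        (CF + 4 * C₂ * (48 / c₂ ^ 3)) / m ^ 2 * W := by
    rw [hK, hSm, norm_mul, norm_mul, Complex.norm_real, Real.norm_of_nonneg hm0.le]
    have h1 : ‖J‖ ≤ ‖lam‖ * ‖E‖ + 4 * C₂ * Real.exp (-c₂ * (m / 2)) * W := by
      have h2 : J = (J - lam * E) + lam * E := by ring
      calc ‖J‖ = ‖(J - lam * E) + lam * E‖ := by rw [← h2]
        _ ≤ ‖J - lam * E‖ + ‖lam * E‖ := norm_add_le _ _
        _ ≤ _ := by rw [norm_mul]; linarith
    have h3 : ‖μ0‖ * (m * ‖J‖) ≤ m * ‖J‖ := by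
      have : 0 ≤ m * ‖J‖ := by positivity
      nlinarith
    have h4 : m * ‖J‖ ≤ m * ‖lam‖ * ‖E‖ + 4 * C₂ * (m * Real.exp (-c₂ * (m / 2))) * W := by
      have := mul_le_mul_of_nonneg_left h1 hm0.le
      linarith
    have h5 := exp_cube c₂ m hc₂ hm0
    have h6 : 4 * C₂ * (m * Real.exp (-c₂ * (m / 2))) * W ≤ 4 * C₂ * (48 / c₂ ^ 3 / m ^ 2) * W := by
      apply mul_le_mul_of_nonneg_right _ hW0
      exact mul_le_mul_of_nonneg_left h5 (by positivity)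
    have h7 : 0 ≤ 4 * C₂ * (48 / c₂ ^ 3) * (1 + |Real.log (‖a‖ / ‖b‖)|) := by positivity
    have h8 : 0 ≤ CF / m ^ 2 * W := by positivity
    have h9 : (CF + 4 * C₂ * (48 / c₂ ^ 3)) / m ^ 2 * W =
        CF / m ^ 2 * W + 4 * C₂ * (48 / c₂ ^ 3 / m ^ 2) * W := by ring
    rw [h9]
    linarith
  refine (ENNReal.ofReal_le_ofReal hKn).trans ?_
  refine ENNReal.ofReal_add_le.trans ?_
  refine add_le_add le_rfl ?_
  rw [ENNReal.ofReal_mul (by positivity)]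
  refine mul_le_mul' le_rfl ?_
  rw [hW, ofReal_integral_eq_lintegral_ofReal hthI.norm (Filter.Eventually.of_forall fun _ => norm_nonneg _)]

end Pool.Agent.Helper8.QT
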