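import Pool.Agent.Helper88.QT.St1
import Pool.Agent.Helper85.QT.St1

/-!
# Project QT (MP_d112a4_gt), module FDM: the flat distance
-/

set_option autoImplicit false

open MeasureTheory Matrix Set Topology
open scoped ENNReal ComplexConjugate

namespace Pool.Agent.Helper8.QT

open Pool.Agent.Helper88.QT Pool.Agent.Helper85.QT Pool.Agent.Helper86.QA

lemma norm_le_parts (w w' : ℂ) (h1 : |w.re| ≤ |w'.re|) (h2 : |w.im| ≤ |w'.im|) : ‖w‖ ≤ ‖w'‖ := by
  have h3 : ‖w‖ ^ 2 ≤ ‖w'‖ ^ 2 := by
    rw [Complex.sq_norm, Complex.sq_norm, Complex.normSq_apply, Complex.normSq_apply]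
    have h4 := sq_le_sq.2 h1
    have h5 := sq_le_sq.2 h2
    nlinarith
  exact (pow_le_pow_iff_left₀ (norm_nonneg _) (norm_nonneg _) two_ne_zero).1 h3

lemma norm_log_inv_le (q : ℂ) : ‖Complex.log q⁻¹‖ ≤ ‖Complex.log q‖ := by
  apply norm_le_parts
  · rw [Complex.log_re, Complex.log_re, norm_inv, Real.log_inv, abs_neg]
  · rw [Complex.log_im, Complex.log_im, Complex.abs_arg_inv]

lemma norm_log_inv (q : ℂ) : ‖Complex.log q⁻¹‖ = ‖Complex.log q‖ := by
  apply le_antisymm (norm_log_inv_le q)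
  have h := norm_log_inv_le q⁻¹
  rwa [inv_inv] at h

lemma norm_log_exp (w : ℂ) : ‖Complex.log (Complex.exp w)‖ ≤ ‖w‖ := by
  by_cases h : -Real.pi < w.im ∧ w.im ≤ Real.pi
  · rw [Complex.log_exp h.1 h.2]
  · apply norm_le_parts
    · rw [Complex.log_re, Complex.norm_exp, Real.log_exp]
    · rw [Complex.log_im]
      refine (Complex.abs_arg_le_pi _).trans ?_
      rw [le_abs]
      rcases not_and_or.1 h with h1 | h1
      · right; linarith
      · left; linarith

theorem hFDM : Pool.Agent.Helper88.QT.StFDM := by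
  intro lam hl
  have hl' : 0 < ‖lam‖ := norm_pos_iff.2 hl
  have h4 : ∀ x y : ℂ, fd lam (Complex.exp (lam * x)) (Complex.exp (lam * y)) ≤ ‖x - y‖ := by
    intro x y
    have h1 : Complex.exp (lam * x) / Complex.exp (lam * y) = Complex.exp (lam * (x - y)) := by
      rw [← Complex.exp_sub, mul_sub]
    rw [fd, h1, div_le_iff₀ hl']
    refine (norm_log_exp _).trans ?_
    rw [norm_mul, mul_comm]
  have h5 : ∀ x η : ℂ, η ≠ 0 → ∃ y : ℂ, Complex.exp (lam * y) = η ∧
      fd lam (Complex.exp (lam * x)) η = ‖x - y‖ := by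
    intro x η hη
    refine ⟨x - Complex.log (Complex.exp (lam * x) / η) / lam, ?_, ?_⟩
    · have h1 : lam * (x - Complex.log (Complex.exp (lam * x) / η) / lam) =
          lam * x - Complex.log (Complex.exp (lam * x) / η) := by
        field_simp
      rw [h1, Complex.exp_sub, Complex.exp_log (div_ne_zero (Complex.exp_ne_zero _) hη)]
      rw [div_div_eq_mul_div, mul_comm, mul_div_assoc, div_self (Complex.exp_ne_zero _), mul_one]
    · rw [fd, sub_sub_cancel, norm_div]
  refine ⟨?_, ?_, ?_, h4, h5, ?_⟩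
  · intro ξ η hξ hη
    refine ⟨?_, ?_, ?_, ?_⟩
    · rw [fd, fd, ← norm_log_inv, inv_div]
    · rw [fd]; positivity
    · rw [fd, div_self hξ, Complex.log_one, norm_zero, zero_div]
    · rw [fd, mul_div_cancel₀ _ hl'.ne', ← norm_div, ← Complex.log_re]
      exact Complex.abs_re_le_norm _
  · intro ξ η ζ hξ hη hζ
    obtain ⟨y, hy, hy'⟩ := h5 (Complex.log ξ / lam) η hη
    have h1 : Complex.exp (lam * (Complex.log ξ / lam)) = ξ := by
      rw [mul_div_cancel₀ _ hl, Complex.exp_log hξ]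
    rw [h1] at hy'
    obtain ⟨z, hz, hz'⟩ := h5 y ζ hζ
    rw [hy] at hz'
    have h6 := h4 (Complex.log ξ / lam) z
    rw [h1, hz] at h6
    rw [hy', hz']
    refine h6.trans ?_
    have h7 : Complex.log ξ / lam - z = (Complex.log ξ / lam - y) + (y - z) := by ring
    rw [h7]
    exact norm_add_le _ _
  · intro c ξ η hc hξ hη
    rw [fd, fd, mul_div_mul_left _ _ hc]
  · intro ξ η hη h
    rw [fd, mul_div_cancel₀ _ hl'.ne']
    have h1 := Complex.norm_log_one_add_half_le_self h
    rw [add_sub_cancel] at h1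
    refine h1.trans ?_
    have h2 := norm_nonneg (ξ / η - 1)
    linarith

end Pool.Agent.Helper8.QT
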